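import Pool.Agent.TH774.TD.Add

set_option autoImplicit false

/-!
Turing determinacy and actions of products of metric groups: the proof.
-/

namespace Pool.Agent.Q331.TD

open Filter Topology
open Pool.Agent.Helper227 Pool.Agent.H685R3
open Pool.Agent.TH774.TD

/-- A length on a group which is invariant under conjugation. -/
structure IsLength {G : Type*} [Group G] (L : G → ℝ) : Prop where
  one : L 1 = 0
  nonneg : ∀ g, 0 ≤ L g
  mul : ∀ g h, L (g * h) ≤ L g + L h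
  inv : ∀ g, L g⁻¹ = L g
  conj : ∀ g h, L (h * g * h⁻¹) = L g

/-- The sequence `u` is asymptotically trivial. -/
def Null {G : ℕ → Type*} (L : ∀ n, G n → ℝ) (u : ∀ n, G n) : Prop :=
  Tendsto (fun n => L n (u n)) atTop (𝓝 0)

/-- The curves `γ n` are asymptotically uniformly equicontinuous. -/
def Equi {G : ℕ → Type*} [∀ n, Group (G n)] (L : ∀ n, G n → ℝ) (γ : ∀ n, ℝ → G n) : Prop :=
  ∀ ε > 0, ∃ δ > 0, ∀ᶠ n in atTop, ∀ s t : ℝ, |s - t| < δ → L n ((γ n s)⁻¹ * γ n t) < ε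

section

variable {G : ℕ → Type*} [∀ n, Group (G n)] {L : ∀ n, G n → ℝ}

theorem IsLength.le_conj {H : Type*} [Group H] {l : H → ℝ} (h : IsLength l) (a b : H) :
    l (a⁻¹ * b * a) = l b := by
  have h1 := h.conj b a⁻¹
  rwa [inv_inv] at h1

theorem null_of_close (γ : ∀ n, ℝ → G n) (hL : ∀ n, IsLength (L n)) (hγ : Equi L γ) {a b : ℕ → ℝ}
    (hab : Tendsto (fun n => a n - b n) atTop (𝓝 0)) :
    Null L (fun n => (γ n (a n))⁻¹ * γ n (b n)) := by
  rw [Null, Metric.tendsto_atTop]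
  intro ε hε
  obtain ⟨δ, hδ, h1⟩ := hγ ε hε
  obtain ⟨N, hN⟩ := Metric.tendsto_atTop.1 hab δ hδ
  obtain ⟨M, hM⟩ := eventually_atTop.1 h1
  refine ⟨max N M, fun n hn => ?_⟩
  have h2 := hN n (le_trans (le_max_left _ _) hn)
  rw [Real.dist_eq, sub_zero] at h2
  have h3 := hM n (le_trans (le_max_right _ _) hn) _ _ h2
  rw [Real.dist_eq, sub_zero, abs_of_nonneg ((hL n).nonneg _)]
  exact h3

variable {X : Type*} [MulAction (∀ n, G n) X]

/-- Asymptotically equal sequences act in the same way. -/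
theorem smul_eq_of_close (hnull : ∀ u : ∀ n, G n, Null L u → ∀ ξ : X, u • ξ = ξ)
    {u v : ∀ n, G n} (h : Null L (fun n => (u n)⁻¹ * v n)) (ξ : X) : v • ξ = u • ξ := by
  have h1 := hnull _ h ξ
  have h2 : (fun n => (u n)⁻¹ * v n) = u⁻¹ * v := rfl
  rw [h2, mul_smul] at h1
  have h3 := congrArg (fun ζ => u • ζ) h1
  simpa only [smul_inv_smul] using h3

theorem smul_curve (hL : ∀ n, IsLength (L n)) (hnull : ∀ u : ∀ n, G n, Null L u → ∀ ξ : X, u • ξ = ξ)
    {γ : ∀ n, ℝ → G n} (hγ : Equi L γ) {a b : ℕ → ℝ}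
    (hab : Tendsto (fun n => a n - b n) atTop (𝓝 0)) (ξ : X) :
    (fun n => γ n (a n)) • ξ = (fun n => γ n (b n)) • ξ :=
  (smul_eq_of_close hnull (null_of_close γ hL hγ hab) ξ).symm

/-- The test sets. -/
def test (κ : X → ℕ → Bool) (γ : ∀ n, ℝ → G n) (ξ : X) (i : ℕ) : Set (ℕ → Bool) :=
  {x | κ ((fun n => γ n (sq x n)) • ξ) i = true}

theorem test_invariant (hL : ∀ n, IsLength (L n))
    (hnull : ∀ u : ∀ n, G n, Null L u → ∀ ξ : X, u • ξ = ξ) (κ : X → ℕ → Bool)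
    {γ : ∀ n, ℝ → G n} (hγ : Equi L γ) (ξ : X) (i : ℕ) : TuringInvariant (test κ γ ξ i) := by
  intro x y h1 h2 hx
  change κ _ i = true at hx
  change κ _ i = true
  rw [← smul_curve hL hnull hγ (sq_close h1 h2) ξ]
  exact hx

/-- On a cone the value is constant. -/
theorem const (hL : ∀ n, IsLength (L n))
    (hnull : ∀ u : ∀ n, G n, Null L u → ∀ ξ : X, u • ξ = ξ) {κ : X → ℕ → Bool}
    (hκ : Function.Injective κ) {γ : ∀ n, ℝ → G n} (hγ : Equi L γ) (ξ : X)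
    (hD : ∀ i, Determined (test κ γ ξ i)) : ∃ (z : ℕ → Bool) (r : X), ∀ y, TLe z y →
      (fun n => γ n (sq y n)) • ξ = r := by
  obtain ⟨z, hz⟩ := const_on_cone (S := fun i => test κ γ ξ i)
    (fun i => test_invariant hL hnull κ hγ ξ i) hD
  refine ⟨z, (fun n => γ n (sq z n)) • ξ, fun y hy => hκ (funext fun i => ?_)⟩
  rcases hz i with h | h
  · have h1 : κ _ i = true := h y hy
    have h2 : κ _ i = true := h z (TLe.refl z)
    rw [h1, h2]
  · have h1 : ¬ κ _ i = true := h y hy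
    have h2 : ¬ κ _ i = true := h z (TLe.refl z)
    rw [Bool.not_eq_true] at h1 h2
    rw [h1, h2]

/-- A loop at the identity with period one. -/
structure Loop (γ : ∀ n, ℝ → G n) : Prop where
  per : ∀ n t (k : ℤ), γ n (t + k) = γ n t
  zero : ∀ n, γ n 0 = 1

theorem Loop.int {γ : ∀ n, ℝ → G n} (h : Loop γ) (n : ℕ) (k : ℤ) : γ n k = 1 := by
  have h1 := h.per n 0 k
  rw [zero_add, h.zero] at h1
  exact h1

/-- Splitting a loop into its odd and its even turns. -/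
theorem Loop.split {γ : ∀ n, ℝ → G n} (h : Loop γ) (n : ℕ) (x : ℝ) :
    γ n x = γ n ((x + dl x) / 2) * γ n ((x - dl x) / 2) := by
  rcases le_total (2 * (round (x / 2) : ℝ)) x with hx | hx
  · have h1 : dl x = x - 2 * round (x / 2) := by
      rw [dl, abs_of_nonneg (by linarith)]
    have h2 : (x - dl x) / 2 = ((round (x / 2) : ℤ) : ℝ) := by rw [h1]; ring
    have h3 : (x + dl x) / 2 = x + ((-round (x / 2) : ℤ) : ℝ) := by rw [h1]; push_cast; ring
    rw [h2, h3, h.int, h.per, mul_one]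
  · have h1 : dl x = 2 * round (x / 2) - x := by
      rw [dl, abs_of_nonpos (by linarith)]
      ring
    have h2 : (x + dl x) / 2 = ((round (x / 2) : ℤ) : ℝ) := by rw [h1]; ring
    have h3 : (x - dl x) / 2 = x + ((-round (x / 2) : ℤ) : ℝ) := by rw [h1]; push_cast; ring
    rw [h2, h3, h.int, h.per, one_mul]

/-- All slow turns of a loop act trivially. -/
theorem loop_trivial (hL : ∀ n, IsLength (L n))
    (hnull : ∀ u : ∀ n, G n, Null L u → ∀ ξ : X, u • ξ = ξ) {κ : X → ℕ → Bool}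
    (hκ : Function.Injective κ) {γ : ∀ n, ℝ → G n} (hγ : Equi L γ) (hl : Loop γ)
    (hD : ∀ ξ i, Determined (test κ γ ξ i)) (ξ : X) :
    ∃ z : ℕ → Bool, ∀ y, TLe z y → (fun n => γ n (sq y n)) • ξ = ξ := by
  obtain ⟨z₁, r, h1⟩ := const hL hnull hκ hγ ξ (hD ξ)
  obtain ⟨z₂, r', h2⟩ := const hL hnull hκ hγ r (hD r)
  obtain ⟨z, hz⟩ := Pool.Agent.W885.TD.join_cone (fun n : ℕ => if n = 0 then z₁ else z₂)
  have hz1 : TLe z₁ z := by simpa using hz 0
  have hz2 : TLe z₂ z := by simpa using hz 1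
  obtain ⟨s, hs0, hs, hw⟩ := walk_sq z
  obtain ⟨y₁, g1, e1⟩ := hw _ nice_id
  obtain ⟨y₂, g2, e2⟩ := hw _ nice_two
  obtain ⟨y₃, g3, e3⟩ := hw _ nice_three
  have a1 : (fun n => γ n (s n)) • ξ = r := by
    rw [← h1 y₁ (hz1.trans g1)]
    exact (smul_curve hL hnull hγ e1 ξ).symm
  have a3 : (fun n => γ n ((s n - dl (s n)) / 2)) • ξ = r := by
    rw [← h1 y₃ (hz1.trans g3)]
    exact (smul_curve hL hnull hγ e3 ξ).symm
  have a2 : (fun n => γ n ((s n + dl (s n)) / 2)) • ξ = r := by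
    rw [← h1 y₂ (hz1.trans g2)]
    exact (smul_curve hL hnull hγ e2 ξ).symm
  have b2 : (fun n => γ n ((s n + dl (s n)) / 2)) • r = r := by
    have h3 : (fun n => γ n (s n)) = (fun n => γ n ((s n + dl (s n)) / 2)) *
        fun n => γ n ((s n - dl (s n)) / 2) := funext fun n => hl.split n (s n)
    have h4 := a1
    rw [h3, mul_smul, a3] at h4
    exact h4
  have h5 : ξ = r := MulAction.injective (fun n => γ n ((s n + dl (s n)) / 2)) (a2.trans b2.symm)
  refine ⟨z₁, fun y hy => ?_⟩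
  rw [h1 y hy]
  exact h5.symm

theorem wv_int (t : ℝ) (k : ℤ) : wv (t + k) = wv t := by
  rw [wv_eq, wv_eq]
  have h1 : 2 * (Real.pi * (t + k)) = 2 * (Real.pi * t) + k * (2 * Real.pi) := by ring
  rw [h1, Real.cos_add_int_mul_two_pi]

theorem wv_zero : wv 0 = 0 := by
  rw [wv, mul_zero, Real.sin_zero]
  norm_num

theorem wv_half : wv (1 / 2) = 1 := by
  have h1 : Real.pi * (1 / 2) = Real.pi / 2 := by ring
  rw [wv, h1, Real.sin_pi_div_two]
  norm_num

/-- The sequence `v` is joined to the identity by curves which are asymptotically uniformly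
equicontinuous. -/
def Joinable (L : ∀ n, G n → ℝ) (v : ∀ n, G n) : Prop :=
  ∃ p : ∀ n, ℝ → G n, (∀ n, p n 0 = 1) ∧ (∀ n, p n 1 = v n) ∧
    ∀ ε > 0, ∃ δ > 0, ∀ᶠ n in atTop, ∀ s ∈ Set.Icc (0 : ℝ) 1, ∀ t ∈ Set.Icc (0 : ℝ) 1,
      |s - t| < δ → L n ((p n s)⁻¹ * p n t) < ε

/-- **Main theorem.** -/
theorem trivial_action (hL : ∀ n, IsLength (L n))
    (hnull : ∀ u : ∀ n, G n, Null L u → ∀ ξ : X, u • ξ = ξ) {κ : X → ℕ → Bool}
    (hκ : Function.Injective κ)
    (hD : ∀ γ : ∀ n, ℝ → G n, Equi L γ → ∀ ξ i, Determined (test κ γ ξ i))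
    {v : ∀ n, G n} (hv : Joinable L v) (ξ : X) : v • ξ = ξ := by
  obtain ⟨p, hp0, hp1, hp⟩ := hv
  have close : ∀ ε > 0, ∃ δ > 0, ∀ᶠ n in atTop, ∀ s t : ℝ, |s - t| < δ →
      L n ((p n (wv s))⁻¹ * p n (wv t)) < ε := by
    intro ε hε
    obtain ⟨δ, hδ, h1⟩ := hp ε hε
    refine ⟨δ / 4, by positivity, ?_⟩
    filter_upwards [h1] with n hn s t hst
    refine hn _ (wv_mem s) _ (wv_mem t) ?_
    have h2 := wv_sub_le s t
    linarith
  have hγ : Equi L (fun n t => p n (wv t)) := close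
  have hγ' : Equi L (fun n t => (p n (wv (t + 1 / 2)))⁻¹ * v n) := by
    intro ε hε
    obtain ⟨δ, hδ, h1⟩ := close ε hε
    refine ⟨δ, hδ, ?_⟩
    filter_upwards [h1] with n hn s t hst
    have h2 := hn (s + 1 / 2) (t + 1 / 2) (by
      have : s + 1 / 2 - (t + 1 / 2) = s - t := by ring
      rw [this]
      exact hst)
    set a := p n (wv (s + 1 / 2))
    set b := p n (wv (t + 1 / 2))
    have h3 : (a⁻¹ * v n)⁻¹ * (b⁻¹ * v n) = (v n)⁻¹ * (a * b⁻¹) * v n := by group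
    have h4 : L n (a * b⁻¹) = L n (a⁻¹ * b) := by
      have h5 : a * b⁻¹ = a * (a⁻¹ * b)⁻¹ * a⁻¹ := by group
      rw [h5, (hL n).conj, (hL n).inv]
    show L n ((a⁻¹ * v n)⁻¹ * (b⁻¹ * v n)) < ε
    rw [h3, (hL n).le_conj, h4]
    exact h2
  have hl : Loop (fun n t => p n (wv t)) :=
    ⟨fun n t k => by show p n (wv (t + k)) = p n (wv t); rw [wv_int],
      fun n => by show p n (wv 0) = 1; rw [wv_zero, hp0]⟩
  have hl' : Loop (fun n t => (p n (wv (t + 1 / 2)))⁻¹ * v n) :=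
    ⟨fun n t k => by
      show (p n (wv (t + k + 1 / 2)))⁻¹ * v n = (p n (wv (t + 1 / 2)))⁻¹ * v n
      have h1 : t + k + 1 / 2 = t + 1 / 2 + k := by ring
      rw [h1, wv_int],
      fun n => by
      show (p n (wv (0 + 1 / 2)))⁻¹ * v n = 1
      rw [zero_add, wv_half, hp1, inv_mul_cancel]⟩
  obtain ⟨z₁, h1⟩ := loop_trivial hL hnull hκ hγ hl (hD _ hγ) ξ
  obtain ⟨z₂, h2⟩ := loop_trivial hL hnull hκ hγ' hl' (hD _ hγ') ξ
  obtain ⟨z, hz⟩ := Pool.Agent.W885.TD.join_cone (fun n : ℕ => if n = 0 then z₁ else z₂)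
  have hz1 : TLe z₁ z := by simpa using hz 0
  have hz2 : TLe z₂ z := by simpa using hz 1
  obtain ⟨s, hs0, hs, hw⟩ := walk_sq z
  obtain ⟨y₁, g1, e1⟩ := hw _ nice_id
  obtain ⟨y₂, g2, e2⟩ := hw _ (nice_shift (c := 1 / 2) (by norm_num))
  have a1 : (fun n => p n (wv (s n))) • ξ = ξ := by
    rw [← smul_curve hL hnull hγ e1 ξ]
    exact h1 y₁ (hz1.trans g1)
  have a2 : (fun n => (p n (wv (max (s n - 1 / 2) 0 + 1 / 2)))⁻¹ * v n) • ξ = ξ := by
    rw [← smul_curve hL hnull hγ' e2 ξ]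
    exact h2 y₂ (hz2.trans g2)
  have key : v • ξ = ((fun n => p n (wv (s n))) *
      fun n => (p n (wv (max (s n - 1 / 2) 0 + 1 / 2)))⁻¹ * v n) • ξ := by
    refine smul_eq_of_close hnull ?_ ξ
    refine tendsto_const_nhds.congr' ?_
    filter_upwards [hs.eventually_ge_atTop (1 / 2)] with n hn
    have h3 : max (s n - 1 / 2) 0 + 1 / 2 = s n := by
      rw [max_eq_left (by linarith)]
      ring
    have h4 : ((p n (wv (s n)) * ((p n (wv (s n)))⁻¹ * v n))⁻¹ * v n) = 1 := by group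
    simp only [Pi.mul_apply, h3]
    rw [h4, (hL n).one]
  rw [key, mul_smul, a2, a1]

end

end Pool.Agent.Q331.TD
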