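import Pool.Agent.Q331.TD.Act

set_option autoImplicit false

/-!
Sequences which are joined to the identity: products of many short elements, permutations.
-/

namespace Pool.Agent.Q331.TD

open Filter Topology

theorem IsLength.prod_le {G : Type*} [Group G] {L : G → ℝ} (h : IsLength L) {c : ℝ} (l : List G)
    (hl : ∀ g ∈ l, L g ≤ c) : L l.prod ≤ l.length * c := by
  induction l with
  | nil => simp [h.one]
  | cons a l ih =>
    rw [List.prod_cons, List.length_cons]
    have h1 := h.mul a l.prod
    have h2 := hl a List.mem_cons_self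
    have h3 := ih fun g hg => hl g (List.mem_cons_of_mem _ hg)
    push_cast
    linarith

theorem take_prod {G : Type*} [Group G] (l : List G) {a b : ℕ} (hab : a ≤ b) :
    (l.take a).prod⁻¹ * (l.take b).prod = ((l.take b).drop a).prod := by
  have h1 : (l.take b).take a = l.take a := by rw [List.take_take, min_eq_left hab]
  have h2 := List.take_append_drop a (l.take b)
  have h3 : (l.take b).prod = (l.take a).prod * ((l.take b).drop a).prod := by
    rw [← List.prod_append, ← h1, h2]
  rw [h3, inv_mul_cancel_left]

theorem take_len {G : Type*} [Group G] {L : G → ℝ} (h : IsLength L) {c : ℝ} (hc : 0 ≤ c)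
    (l : List G) (hl : ∀ g ∈ l, L g ≤ c) {a b : ℕ} (hab : a ≤ b) :
    L ((l.take a).prod⁻¹ * (l.take b).prod) ≤ (b - a) * c := by
  rw [take_prod l hab]
  refine (h.prod_le _ fun g hg => hl g ?_).trans ?_
  · exact List.mem_of_mem_take (List.mem_of_mem_drop hg)
  · have h1 : ((l.take b).drop a).length ≤ b - a := by
      rw [List.length_drop, List.length_take]
      omega
    have h2 : (((l.take b).drop a).length : ℝ) ≤ (b : ℝ) - a := by
      have h3 : (((l.take b).drop a).length : ℝ) ≤ ((b - a : ℕ) : ℝ) := by exact_mod_cast h1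
      rwa [Nat.cast_sub hab] at h3
    exact mul_le_mul_of_nonneg_right h2 hc

theorem len_symm {G : Type*} [Group G] {L : G → ℝ} (h : IsLength L) (a b : G) :
    L (a⁻¹ * b) = L (b⁻¹ * a) := by
  have h1 : b⁻¹ * a = (a⁻¹ * b)⁻¹ := by group
  rw [h1, h.inv]

/-- If `v n` is a product of at most `m n` elements of length at most `c / m n`, and `m` tends to
infinity, then `v` is joined to the identity. -/
theorem joinable_of_factors {G : ℕ → Type*} [∀ n, Group (G n)] {L : ∀ n, G n → ℝ}
    (hL : ∀ n, IsLength (L n)) {v : ∀ n, G n} (m : ℕ → ℕ) (hm : Tendsto m atTop atTop) {c : ℝ}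
    (hc : 0 ≤ c) (l : ∀ n, List (G n)) (hv : ∀ n, (l n).prod = v n)
    (hlen : ∀ n, (l n).length ≤ m n) (hl : ∀ n, ∀ g ∈ l n, L n g ≤ c / m n) :
    Joinable L v := by
  refine ⟨fun n t => ((l n).take ⌊t * (l n).length⌋₊).prod, fun n => ?_, fun n => ?_, ?_⟩
  · simp
  · simp [hv n]
  · intro ε hε
    refine ⟨ε / (2 * (c + 1)), by positivity, ?_⟩
    have h1 : Tendsto (fun n => c / (m n : ℝ)) atTop (𝓝 0) :=
      tendsto_const_nhds.div_atTop (tendsto_natCast_atTop_atTop.comp hm)
    filter_upwards [h1.eventually (gt_mem_nhds (show (0 : ℝ) < ε / 2 by positivity)),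
      hm.eventually_ge_atTop 1] with n hn hn1
    have hm0 : (0 : ℝ) < m n := by exact_mod_cast hn1
    have hcm : 0 ≤ c / m n := by positivity
    have key : ∀ s ∈ Set.Icc (0 : ℝ) 1, ∀ t ∈ Set.Icc (0 : ℝ) 1, s ≤ t →
        |s - t| < ε / (2 * (c + 1)) →
        L n ((((l n).take ⌊s * (l n).length⌋₊).prod)⁻¹ *
          ((l n).take ⌊t * (l n).length⌋₊).prod) < ε := by
      intro s hs t ht hst hd
      have hl0 : (0 : ℝ) ≤ (l n).length := Nat.cast_nonneg _
      have h2 : ⌊s * (l n).length⌋₊ ≤ ⌊t * (l n).length⌋₊ :=
        Nat.floor_le_floor (mul_le_mul_of_nonneg_right hst hl0)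
      refine lt_of_le_of_lt (take_len (hL n) hcm (l n) (hl n) h2) ?_
      have h3 : (⌊t * (l n).length⌋₊ : ℝ) ≤ t * (l n).length :=
        Nat.floor_le (mul_nonneg ht.1 hl0)
      have h4 : s * (l n).length < ⌊s * (l n).length⌋₊ + 1 := Nat.lt_floor_add_one _
      have h5 : ((l n).length : ℝ) ≤ m n := by exact_mod_cast hlen n
      rw [abs_sub_comm, abs_of_nonneg (by linarith)] at hd
      have h6 : (⌊t * (l n).length⌋₊ : ℝ) - ⌊s * (l n).length⌋₊ ≤ (t - s) * m n + 1 := by
        have h7 : (t - s) * (l n).length ≤ (t - s) * m n :=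
          mul_le_mul_of_nonneg_left h5 (by linarith)
        nlinarith
      have h8 : ((t - s) * m n + 1) * (c / m n) = (t - s) * c + c / m n := by
        field_simp
      have h9 : (t - s) * c ≤ ε / 2 := by
        have h10 : (t - s) * c ≤ ε / (2 * (c + 1)) * c := mul_le_mul_of_nonneg_right hd.le hc
        have h11 : ε / (2 * (c + 1)) * c ≤ ε / 2 := by
          rw [div_mul_eq_mul_div, div_le_div_iff₀ (by positivity) (by positivity)]
          nlinarith
        linarith
      have h12 := mul_le_mul_of_nonneg_right h6 hcm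
      linarith
    intro s hs t ht hd
    rcases le_total s t with h | h
    · exact key s hs t ht h hd
    · rw [len_symm (hL n)]
      exact key t ht s hs h (by rwa [abs_sub_comm])

/-- The normalised Hamming length: the proportion of the points which are moved. -/
noncomputable def hamming (d : ℕ) (σ : Equiv.Perm (Fin d)) : ℝ := (σ.support.card : ℝ) / d

theorem isLength_hamming (d : ℕ) : IsLength (hamming d) where
  one := by simp [hamming]
  nonneg := fun σ => by unfold hamming; positivity
  mul := fun σ τ => by
    unfold hamming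
    rw [← add_div]
    refine div_le_div_of_nonneg_right ?_ (Nat.cast_nonneg _)
    have h1 : (σ * τ).support.card ≤ (σ.support ∪ τ.support).card :=
      Finset.card_le_card (Equiv.Perm.support_mul_le σ τ)
    exact_mod_cast h1.trans (Finset.card_union_le _ _)
  inv := fun σ => by simp [hamming]
  conj := fun σ τ => by simp [hamming]

/-- A permutation is a product of at most as many transpositions as it moves points. -/
theorem factors {d : ℕ} (k : ℕ) : ∀ σ : Equiv.Perm (Fin d), σ.support.card ≤ k →
    ∃ l : List (Equiv.Perm (Fin d)), l.prod = σ ∧ l.length ≤ k ∧ ∀ g ∈ l, g.support.card ≤ 2 := by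
  induction k with
  | zero =>
    intro σ hσ
    refine ⟨[], ?_, by simp, by simp⟩
    have h1 : σ.support.card = 0 := by omega
    rw [List.prod_nil]
    exact (Equiv.Perm.card_support_eq_zero.1 h1).symm
  | succ k ih =>
    intro σ hσ
    by_cases h1 : σ = 1
    · exact ⟨[], by simp [h1], by simp, by simp⟩
    · obtain ⟨x, hx⟩ : ∃ x, σ x ≠ x := by
        by_contra hc
        push Not at hc
        exact h1 (Equiv.ext hc)
      have h2 := Equiv.Perm.card_support_swap_mul hx
      obtain ⟨l, h3, h4, h5⟩ := ih (Equiv.swap x (σ x) * σ) (by omega)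
      refine ⟨Equiv.swap x (σ x) :: l, ?_, by simp; omega, ?_⟩
      · rw [List.prod_cons, h3, ← mul_assoc, Equiv.swap_mul_self, one_mul]
      · intro g hg
        rcases List.mem_cons.1 hg with rfl | hg
        · rw [Equiv.Perm.card_support_swap hx.symm]
        · exact h5 g hg

theorem joinable_perm (d : ℕ → ℕ) (hd : Tendsto d atTop atTop) (v : ∀ n, Equiv.Perm (Fin (d n))) :
    Joinable (fun n => hamming (d n)) v := by
  choose l h1 h2 h3 using fun n => factors (d n) (v n) (by
    have := Finset.card_le_univ (v n).support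
    simpa using this)
  refine joinable_of_factors (fun n => isLength_hamming (d n)) d hd (c := 2) (by norm_num) l h1 h2
    fun n g hg => ?_
  unfold hamming
  refine div_le_div_of_nonneg_right ?_ (Nat.cast_nonneg _)
  exact_mod_cast h3 n g hg

end Pool.Agent.Q331.TD
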