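import Pool.Agent.Q331.TD.Perm

set_option autoImplicit false

/-!
Sequences which are joined to the identity: unitary elements of C*-algebras.
-/

namespace Pool.Agent.Q331.TD

open Filter Topology selfAdjoint

/-- The distance of a unitary element of a C*-algebra from the identity. -/
noncomputable def unitaryLength (A : Type*) [CStarAlgebra A] (u : unitary A) : ℝ := ‖(u : A) - 1‖

theorem norm_unitary_mul {A : Type*} [CStarAlgebra A] (u : unitary A) (a : A) :
    ‖(u : A) * a‖ = ‖a‖ := CStarRing.norm_coe_unitary_mul u a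

theorem norm_mul_unitary {A : Type*} [CStarAlgebra A] (a : A) (u : unitary A) :
    ‖a * (u : A)‖ = ‖a‖ := CStarRing.norm_mul_coe_unitary a u

theorem isLength_unitary (A : Type*) [CStarAlgebra A] : IsLength (unitaryLength A) where
  one := by simp [unitaryLength]
  nonneg := fun u => norm_nonneg _
  mul := fun u v => by
    unfold unitaryLength
    have h1 : ((u * v : unitary A) : A) - 1 = (u : A) * ((v : A) - 1) + ((u : A) - 1) := by
      rw [Submonoid.coe_mul, mul_sub, mul_one]
      abel
    rw [h1]
    refine (norm_add_le _ _).trans ?_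
    rw [norm_unitary_mul, add_comm]
  inv := fun u => by
    unfold unitaryLength
    have h1 : (u : A) - 1 = -((u : A) * (((u⁻¹ : unitary A) : A) - 1)) := by
      have h2 : (u : A) * ((u⁻¹ : unitary A) : A) = 1 := by
        rw [← Submonoid.coe_mul, mul_inv_cancel, Submonoid.coe_one]
      rw [mul_sub, h2, mul_one, neg_sub]
    rw [h1, norm_neg, norm_unitary_mul]
  conj := fun u v => by
    unfold unitaryLength
    have h1 : ((v * u * v⁻¹ : unitary A) : A) - 1 =
        (v : A) * (((u : A) - 1) * ((v⁻¹ : unitary A) : A)) := by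
      have h2 : (v : A) * ((v⁻¹ : unitary A) : A) = 1 := by
        rw [← Submonoid.coe_mul, mul_inv_cancel, Submonoid.coe_one]
      rw [Submonoid.coe_mul, Submonoid.coe_mul, sub_mul, one_mul, mul_sub, h2, mul_assoc]
    rw [h1, norm_unitary_mul, norm_mul_unitary]

theorem expUnitary_len {A : Type*} [CStarAlgebra A] {h : selfAdjoint A} (hh : ‖h‖ ≤ Real.pi) :
    unitaryLength A (expUnitary h) ≤ ‖h‖ := by
  have h1 := norm_sq_expUnitary_sub_one hh
  have h2 := Real.one_sub_sq_div_two_le_cos (x := ‖h‖)
  have h3 : unitaryLength A (expUnitary h) ^ 2 ≤ ‖h‖ ^ 2 := by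
    rw [unitaryLength, h1]
    linarith
  exact le_of_sq_le_sq h3 (norm_nonneg _)

theorem joinable_unitary (A : ℕ → Type*) [∀ n, CStarAlgebra (A n)] (v : ∀ n, unitary (A n))
    (hv : ∀ n, ‖(v n : A n) - 1‖ < 2) : Joinable (fun n => unitaryLength (A n)) v := by
  refine ⟨fun n t => expUnitary (t • Unitary.argSelfAdjoint (v n)), fun n => ?_, fun n => ?_, ?_⟩
  · show expUnitary ((0 : ℝ) • _) = 1
    rw [zero_smul, expUnitary_zero]
  · show expUnitary ((1 : ℝ) • _) = v n
    rw [one_smul, expUnitary_argSelfAdjoint (hv n)]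
  · intro ε hε
    refine ⟨min 1 (ε / Real.pi), lt_min one_pos (by positivity), Eventually.of_forall ?_⟩
    intro n s _ t _ hst
    set h := Unitary.argSelfAdjoint (v n)
    have hh : ‖h‖ ≤ Real.pi := Unitary.norm_argSelfAdjoint_le_pi (v n)
    have h1 : t • h = s • h + (t - s) • h := by
      rw [← add_smul]
      congr 1
      ring
    have h2 : expUnitary (t • h) = expUnitary (s • h) * expUnitary ((t - s) • h) := by
      conv_lhs => rw [h1]
      refine Commute.expUnitary_add ?_
      simp only [selfAdjoint.val_smul]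
      exact ((Commute.refl (h : A n)).smul_left s).smul_right (t - s)
    show unitaryLength (A n) ((expUnitary (s • h))⁻¹ * expUnitary (t • h)) < ε
    rw [h2, inv_mul_cancel_left]
    have h3 : ‖(t - s) • h‖ = |s - t| * ‖h‖ := by
      rw [norm_smul, Real.norm_eq_abs, abs_sub_comm]
    have h4 : |s - t| < 1 := hst.trans_le (min_le_left _ _)
    have h5 : |s - t| < ε / Real.pi := hst.trans_le (min_le_right _ _)
    have h6 : |s - t| * ‖h‖ ≤ |s - t| * Real.pi := mul_le_mul_of_nonneg_left hh (abs_nonneg _)
    have h7 : |s - t| * Real.pi < ε := by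
      rwa [lt_div_iff₀ Real.pi_pos] at h5
    have h8 : ‖(t - s) • h‖ ≤ Real.pi := by
      rw [h3]
      nlinarith [Real.pi_pos]
    have h9 := expUnitary_len h8
    rw [h3] at h9
    linarith

end Pool.Agent.Q331.TD
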